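import Pool.Agent.R655.LI.Test
import Pool.Agent.H18LI.Final
import Pool.Agent.H18LI.ISO
import Pool.Agent.H18LI.WALK
import Pool.Agent.H18LI.HALL
import Pool.Agent.H18LI.CONTR

/-!
# Deleting the 2-cell after random homotopies of the attaching maps across it

Definitions (`Pool.Agent.R655.LI.Defs`, `Pool.Agent.R655.LI.Asph`, `Pool.Agent.H18LI.Stm`,
`Pool.Agent.H18LI.Final`):

* `Cx`: a 2-complex with one vertex, 1-cells `V`, 2-cells `R`, attaching words `r : R → FreeGroup V`;
  `L.Contractible`: `π₁(L) = 1` and the cellular boundary operator `ℤ[R] → ℤ[V]` is injective;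
  `Sub K L`: `K` is a subcomplex of `L`; `L.del e`: `L` without the open 2-cell `e`; `OneCell L e`: `L`
  is contractible and `e` is attached along a 1-cell;
* `Asph K`: the boundary operator `C₂ → C₁` of the universal covering (Fox derivatives of the
  attaching words) is injective, i.e. `π₂(K) = 0`;
* `w : R → List (V × Bool)`: attaching words, written out letter by letter (a letter is a 1-cell with a
  sign); `base w`: the complex with these attaching words; `Pos w`: the occurrences of letters in the
  words, `gen w p`: the 1-cell of the occurrence `p`;
* `lift w h` for heights `h : Pos w → ℤ`: the complex with one more 1-cell `t = none`, one more 2-cell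
  `e = none` attached along `t`, and in the other attaching words every letter `x^±` at the occurrence
  `p` replaced by `t^(h p) x^± t^(-h p)` (the attaching maps are changed by homotopies across `e`);
* `IsSel w q`: the selection `q` selects one occurrence from every word and the selected 1-cells are
  different; `Tie w h`: two different selections have the same minimal total height `∑ h (q r)`.
-/

set_option autoImplicit false

namespace Pool.Agent.Results.MP_75ccdc_gt.RandomHomotopies

open Pool.Agent.R655.LI Pool.Agent.H18LI

theorem pind {G : Type} [Group G] (h : LocInd G) : PInd 0 G := by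
  intro H hfg hH
  obtain ⟨f, hf⟩ := h H hfg hH
  refine ⟨f, fun h1 => ?_⟩
  obtain ⟨x, hx⟩ := hf (Multiplicative.ofAdd 1)
  have h2 : f x = 1 := DFunLike.congr_fun h1 x
  rw [h2] at hx
  exact absurd (congrArg Multiplicative.toAdd hx) (by simp)

/-- Let `L = base w` be a finite contractible 2-complex. Then `lift w h` is contractible for all
heights `h`; if `h` has no tie, `lift w h` without the 2-cell `e` is aspherical, and so are all its
subcomplexes; and the proportion of the heights `h : Pos w → {0, ..., N - 1}` with a tie is at most
`l / N`, `l` the total length of the words. -/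
theorem result (V R : Type) [Finite V] [Fintype R] (w : R → List (V × Bool))
    (hw : (base w).Contractible) :
    (∀ h : Pos w → ℤ, OneCell (lift w h) none) ∧
    (∀ h : Pos w → ℤ, ¬ Tie w h → Asph ((lift w h).del none) ∧
      ∀ (K : Cx) (_ : Sub K ((lift w h).del none)), Asph K) ∧
    ∀ N : ℕ, {h : Pos w → Fin N | Tie w fun p => ((h p : ℕ) : ℤ)}.ncard * N ≤
      (∑ r, (w r).length) * N ^ (∑ r, (w r).length) := by
  have key : ∀ h : Pos w → ℤ, ¬ Tie w h → ∀ (K : Cx) (_ : Sub K ((lift w h).del none)),
      Asph K := by
    intro h ht K s
    exact asph_of_PInd (s.trans (delSub (lift w h) none)) (t_CONTR V R w h hw).1 0 (Or.inl rfl)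
      (pind (good_of_not_tie t_WALK t_HALL w hw h ht K s))
  refine ⟨fun h => t_CONTR V R w h hw, fun h ht => ⟨?_, key h ht⟩, fun N => count_tie t_ISO w N⟩
  exact key h ht _ ⟨Function.Embedding.refl _, Function.Embedding.refl _, fun j => by
    change FreeGroup.map id _ = _
    rw [FreeGroup.map.id]
    rfl⟩

end Pool.Agent.Results.MP_75ccdc_gt.RandomHomotopies
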