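import Pool.Agent.R655.LI.Test
import Pool.Agent.H18RD.Main
import Pool.Agent.H18RD.COV2
import Pool.Agent.H18RD.GAUGE
import Pool.Agent.H18RD.CYC
import Pool.Agent.H18RD.WALK2
import Pool.Agent.H18RD.TREE
import Pool.Agent.H18RD.SEL2
import Pool.Agent.H18RD.CONTR2

/-!
# Almost all ribbon disc complements are aspherical

Definitions (`Pool.Agent.R655.LI.Defs`, `Pool.Agent.R655.LI.Asph`, `Pool.Agent.H18RD.Stm`):

* `Cx`: a 2-complex with one vertex, 1-cells `V`, 2-cells `R`, attaching words `r : R → FreeGroup V`;
  `L.Contractible`: `π₁(L) = 1` and the cellular boundary operator `ℤ[R] → ℤ[V]` is injective;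
  `Sub K L`: `K` is a subcomplex of `L`; `L.del e`: `L` without the open 2-cell `e`;
* `Asph K`: the boundary operator `C₂ → C₁` of the universal covering (Fox derivatives of the
  attaching words) is injective, i.e. `π₂(K) = 0`;
* `v r 0, ..., v r (m r + 1)`: a sequence of labels for every `r : R`; `IsTree v`: the graph with the
  vertices `V` and the edges `{v r 0, v r (m r + 1)}`, `r : R`, is connected and has one vertex more than
  edges; `Cor m`: the corners `⟨r, s⟩`, `s = 0, ..., m r`; the corner `⟨r, s⟩` lies between the labels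
  `lab1 = v r s` and `lab2 = v r (s + 1)`;
* `wirt v h r = v₀ w v_(m+1)⁻¹ w⁻¹`, `w = v₁ ^ (h₁ - h₀) v₂ ^ (h₂ - h₁) ... v_m ^ (h_m - h_(m-1))`: the
  Wirtinger relator (`h_s = h ⟨r, s⟩` the heights); `ribbon v h`: the complex with one vertex, 1-cells
  `V` and 2-cells attached along the Wirtinger relators; `cap v h v₀`: one more 2-cell `none` attached
  along the 1-cell `v₀`;
* `IsSel v q`: the selection `q` of one corner for every `r` is such that the vectors
  `e_(lab2) - e_(lab1)` are linearly independent (the edges `{lab1, lab2}` form a tree); `Tie v h`: two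
  different selections have the same minimal total height `∑ h (q r)`.
-/

set_option autoImplicit false

namespace Pool.Agent.Results.MP_75ccdc_gt.RandomRibbonDiscs

open Pool.Agent.R655.LI Pool.Agent.H18RD

theorem pind {G : Type} [Group G] (h : LocInd G) : PInd 0 G := by
  intro H hfg hH
  obtain ⟨f, hf⟩ := h H hfg hH
  refine ⟨f, fun h1 => ?_⟩
  obtain ⟨x, hx⟩ := hf (Multiplicative.ofAdd 1)
  have h2 : f x = 1 := DFunLike.congr_fun h1 x
  rw [h2] at hx
  exact absurd (congrArg Multiplicative.toAdd hx) (by simp)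

/-- `ribbon v h` is a subcomplex of `cap v h v₀` -/
def subCap {V R : Type} {m : R → ℕ} (v : ∀ r, Fin (m r + 2) → V) (h : Cor m → ℤ) (v₀ : V) :
    Sub (ribbon v h) (cap v h v₀) where
  v := Function.Embedding.refl _
  c := Function.Embedding.some
  comm j := by
    change FreeGroup.map id _ = _
    rw [FreeGroup.map.id]
    rfl

/-- `cap v h v₀` without the added 2-cell is a subcomplex of `ribbon v h` -/
def subDel {V R : Type} {m : R → ℕ} (v : ∀ r, Fin (m r + 2) → V) (h : Cor m → ℤ) (v₀ : V) :
    Sub ((cap v h v₀).del none) (ribbon v h) where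
  v := Function.Embedding.refl _
  c := ⟨fun k => (k.1.get (Option.ne_none_iff_isSome.1 k.2)), fun a b hab => by
    apply Subtype.ext
    have h1 : some (a.1.get (Option.ne_none_iff_isSome.1 a.2)) =
        some (b.1.get (Option.ne_none_iff_isSome.1 b.2)) := congrArg some hab
    rwa [Option.some_get, Option.some_get] at h1⟩
  comm j := by
    change FreeGroup.map id _ = _
    rw [FreeGroup.map.id]
    obtain ⟨j, hj⟩ := j
    cases j with
    | none => exact absurd rfl hj
    | some j => rfl

/-- Let sequences of labels for the edges of a finite tree be given. For all heights `h` the complex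
`cap v h v₀`, obtained from `ribbon v h` by attaching a 2-cell along the 1-cell `v₀`, is contractible;
if `h` has no tie, `ribbon v h` and all its subcomplexes are aspherical, in particular
`cap v h v₀` without the added 2-cell; and the proportion of the heights with values in
`{0, ..., N - 1}` with a tie is at most `c / N`, `c` the number of corners. -/
theorem result (V R : Type) [Finite V] [Fintype R] (m : R → ℕ) (v : ∀ r, Fin (m r + 2) → V)
    (hv : IsTree v) :
    (∀ (h : Cor m → ℤ) (v₀ : V), (cap v h v₀).Contractible) ∧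
    (∀ h : Cor m → ℤ, ¬ Tie v h → Asph (ribbon v h) ∧
      (∀ v₀ : V, Asph ((cap v h v₀).del none)) ∧ ∀ (K : Cx) (_ : Sub K (ribbon v h)), Asph K) ∧
    ∀ N : ℕ, {h : Cor m → Fin N | Tie v fun p => ((h p : ℕ) : ℤ)}.ncard * N ≤
      (∑ r, (m r + 1)) * N ^ (∑ r, (m r + 1)) := by
  obtain ⟨h1, h2, h3⟩ := Main.main COV2.t_COV2 GAUGE.t_GAUGE CYC.t_CYC WALK2.t_WALK2 TREE.t_TREE
    SEL2.t_SEL2 CONTR2.t_CONTR2 V R m v hv
  have hV : Nonempty V := by
    have := hv.2
    have h4 : Nat.card V ≠ 0 := by omega
    exact (Nat.card_ne_zero.1 h4).1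
  have key : ∀ h : Cor m → ℤ, ¬ Tie v h → ∀ (K : Cx) (_ : Sub K (ribbon v h)), Asph K := by
    intro h ht K s
    exact asph_of_PInd (s.trans (subCap v h hV.some)) (h1 h _) 0 (Or.inl rfl) (pind (h2 h ht K s))
  refine ⟨h1, fun h ht => ⟨?_, fun v₀ => key h ht _ (subDel v h v₀), key h ht⟩, h3⟩
  exact key h ht _ ⟨Function.Embedding.refl _, Function.Embedding.refl _, fun j => by
    change FreeGroup.map id _ = _
    rw [FreeGroup.map.id]
    rfl⟩

end Pool.Agent.Results.MP_75ccdc_gt.RandomRibbonDiscs
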